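import Pool.Agent.EQC.Stmts

/-!
# Squad EQC, row LOD: loads
-/

set_option autoImplicit false

open SimpleGraph Finset
open Pool.Agent.Helper51_Equitable (edges nbrs vertexSum nb IsEquitableProper Nice)

namespace Pool.Agent.EQC.H76

theorem cnt_le_one {α : Type} [Fintype α] {p : α → Prop} (h : ∀ i j, p i → p j → i = j) :
    cnt p ≤ 1 := by
  classical
  unfold cnt
  rw [Finset.card_le_one]
  intro i hi j hj
  exact h i j (Finset.mem_filter.1 hi).2 (Finset.mem_filter.1 hj).2

theorem cnt_or {α : Type} [Fintype α] {p q r : α → Prop} (h : ∀ i, p i → q i ∨ r i) :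
    cnt p ≤ cnt q + cnt r := by
  classical
  unfold cnt
  refine le_trans (Finset.card_le_card ?_) (Finset.card_union_le _ _)
  intro i hi
  rw [Finset.mem_union, Finset.mem_filter, Finset.mem_filter]
  rcases h i (Finset.mem_filter.1 hi).2 with h1 | h1
  · exact Or.inl ⟨Finset.mem_univ _, h1⟩
  · exact Or.inr ⟨Finset.mem_univ _, h1⟩

theorem cnt_mono {α : Type} [Fintype α] {p q : α → Prop} (h : ∀ i, p i → q i) :
    cnt p ≤ cnt q := by
  classical
  unfold cnt
  refine Finset.card_le_card ?_
  intro i hi
  rw [Finset.mem_filter]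
  exact ⟨Finset.mem_univ _, h i (Finset.mem_filter.1 hi).2⟩

/-- LOD -/
theorem lod : LodStmt := by
  intro V _ G c D d s w p u hu hur
  constructor
  · have h1 : cnt (fun i : Idx V c => ∃ v, i = Sum.inl (u, v) ∧ v ∈ d.F u ∧ d.par u v = none)
        ≤ 1 := by
      refine cnt_le_one ?_
      rintro i j ⟨v, rfl, hv, hp⟩ ⟨v', rfl, hv', hp'⟩
      rw [d.par_inj u hu hur v hv v' hv' (hp.trans hp'.symm)]
    have h2 : cnt (fun i : Idx V c => i = Sum.inr (Sum.inl (u, d.tau u))) ≤ 1 := by
      refine cnt_le_one ?_
      rintro i j h h'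
      rw [h, h']
    refine le_trans (cnt_or (q := fun i : Idx V c => ∃ v, i = Sum.inl (u, v) ∧ v ∈ d.F u ∧
      d.par u v = none) (r := fun i : Idx V c => i = Sum.inr (Sum.inl (u, d.tau u))) ?_)
      (Nat.add_le_add h1 h2)
    rintro i ⟨hok, hrk, he0, he1⟩
    rcases i with ⟨x, v⟩ | ⟨x, v⟩ | ⟨t, j⟩
    · left
      have hok' : x ∈ s.NF v := hok
      obtain ⟨hx, hxr, hvF⟩ := s.NF_sub v x hok'
      have hrk' : d.rk u < d.rk v := hrk
      have he0' : u ∈ s(x, v) := he0
      rcases Sym2.mem_iff.1 he0' with h | h
      · subst h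
        refine ⟨v, rfl, hvF, ?_⟩
        rcases hpar : d.par u v with _ | y
        · rfl
        · exfalso
          apply he1
          show u ∈ E1 w p (Sum.inl (u, v))
          unfold E1
          simp only [hpar]
          exact Sym2.mem_mk_left _ _
      · rw [h] at hrk'
        exact absurd hrk' (lt_irrefl _)
    · right
      have hok' : x ∈ s.WF v := hok
      obtain ⟨hx, hxr, hv⟩ := s.WF_sub v x hok'
      have hrk' : d.rk u < d.rk v := hrk
      have he0' : u ∈ s(x, v) := he0
      rcases Sym2.mem_iff.1 he0' with h | h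
      · subst h
        rw [hv]
      · rw [h] at hrk'
        exact absurd hrk' (lt_irrefl _)
    · exfalso
      have hok' : LT G D d.Out t ∧ Act d t := hok
      have hrk' : d.rk u < d.rk t := hrk
      have he0' : u ∈ s(p.a t j, t) := he0
      rcases Sym2.mem_iff.1 he0' with h | h
      · rw [h] at hu
        exact (p.a_mem t j hok'.1 hok'.2.2.1).1 hu
      · rw [h] at hrk'
        exact absurd hrk' (lt_irrefl _)
  · refine le_trans (cnt_mono (q := fun i : Idx V c =>
      (∃ x v, i = Sum.inl (x, v) ∧ Xw s x ∧ Hi G D x ∧ x ≠ d.r0 ∧ v ∈ d.F x ∧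
        d.par x v = none ∧ u ∈ w.mt x false) ∨
      (∃ x, i = Sum.inr (Sum.inl (x, d.tau x)) ∧ Xw s x ∧ u ∈ w.mt x true)) ?_)
      (cnt_le_one ?_)
    · rintro i ⟨hok, hrk, he1, he0⟩
      rcases i with ⟨x, v⟩ | ⟨x, v⟩ | ⟨t, j⟩
      · left
        have hok' : x ∈ s.NF v := hok
        obtain ⟨hx, hxr, hvF⟩ := s.NF_sub v x hok'
        have hrk' : d.rk u < d.rk v := hrk
        have he0' : u ∉ s(x, v) := he0
        have hux : u ≠ x := by
          intro h
          apply he0'
          rw [h]
          exact Sym2.mem_mk_left _ _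
        rcases hpar : d.par x v with _ | y
        · by_cases hw : Xw s x
          · refine ⟨x, v, rfl, hw, hx, hxr, hvF, hpar, ?_⟩
            have he1' : u ∈ E1 w p (Sum.inl (x, v)) := he1
            unfold E1 at he1'
            simp only [hpar, if_pos hw] at he1'
            exact he1'
          · exfalso
            have he1' : u ∈ E1 w p (Sum.inl (x, v)) := he1
            unfold E1 at he1'
            simp only [hpar, if_neg hw] at he1'
            rcases Sym2.mem_iff.1 he1' with h | h
            · exact hux h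
            · have hT : Hi G D (d.tau x) := by rw [← h]; exact hu
              have h3 := (d.tau_top x hx hxr hT v (d.F_sub x hx hxr v hvF).2.1).2
              rw [← h] at h3
              omega
        · exfalso
          have he1' : u ∈ E1 w p (Sum.inl (x, v)) := he1
          unfold E1 at he1'
          simp only [hpar] at he1'
          rcases Sym2.mem_iff.1 he1' with h | h
          · exact hux h
          · have h3 := (d.par_some x hx hxr v hvF y hpar).2.2.2.2
            rw [← h] at h3
            omega
      · right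
        have hok' : x ∈ s.WF v := hok
        obtain ⟨hx, hxr, hv⟩ := s.WF_sub v x hok'
        refine ⟨x, by rw [hv], ?_, he1⟩
        show x ∈ s.WF (d.tau x)
        rw [hv]
        exact hok'
      · exfalso
        have hok' : LT G D d.Out t ∧ Act d t := hok
        have htr : t ≠ d.r0 := hok'.2.2.1
        have hrk' : d.rk u < d.rk t := hrk
        have he1' : u ∈ s(p.b t j, p.nx t) := he1
        rcases Sym2.mem_iff.1 he1' with h | h
        · rw [h] at hu
          exact (p.b_mem t j hok'.1 htr).1 hu
        · rcases (p.nx_mem t hok'.1 htr).2 with h3 | h3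
          · rw [← h] at h3
            omega
          · exact hur (h.trans h3.2)
    · have hM : ∀ x b x' b', Xw s x → Xw s x' → u ∈ w.mt x b → u ∈ w.mt x' b' →
          x = x' ∧ b = b' := by
        intro x b x' b' hx hx' h h'
        exact w.inj x b x' b' hx hx'
          (d.mm.mat _ (w.mem x b hx).1 _ (w.mem x' b' hx').1 u h h')
      rintro i j (⟨x, v, rfl, hx, hxh, hxr, hv, hp, hm⟩ | ⟨x, rfl, hx, hm⟩)
        (⟨x', v', rfl, hx', hxh', hxr', hv', hp', hm'⟩ | ⟨x', rfl, hx', hm'⟩)
      · obtain ⟨rfl, -⟩ := hM x false x' false hx hx' hm hm'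
        rw [d.par_inj x hxh hxr v hv v' hv' (hp.trans hp'.symm)]
      · exact absurd (hM x false x' true hx hx' hm hm').2 (by decide)
      · exact absurd (hM x true x' false hx hx' hm hm').2 (by decide)
      · obtain ⟨rfl, -⟩ := hM x true x' true hx hx' hm hm'
        rfl

end Pool.Agent.EQC.H76
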